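import Pool.Agent.R137.OP.Stm

set_option autoImplicit false

namespace Pool.Agent.R801.OP

open Filter Topology Set
open Pool.Agent.R137.OP

lemma d3_eq (a b c : V3) : d3 a b c = a 0 * (b 1 * c 2 - b 2 * c 1) +
    a 1 * (b 2 * c 0 - b 0 * c 2) + a 2 * (b 0 * c 1 - b 1 * c 0) := by
  simp [d3, dt, cr]

lemma d3_cr (A B C D E F : V3) : d3 (cr A B) (cr C D) (cr E F) =
    d3 C D F * d3 A B E - d3 C D E * d3 A B F := by
  simp [d3, dt, cr]; ring

/-- linear combination of three vectors -/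
def lin (u v o w : V3) : V3 := fun c => w 0 * u c + w 1 * v c + w 2 * o c

lemma d3_lin (u v o x y z : V3) : d3 (lin u v o x) (lin u v o y) (lin u v o z) =
    d3 u v o * d3 x y z := by
  simp only [d3_eq, lin]; ring

lemma lin_exists (u v o : V3) (h : d3 u v o ≠ 0) (w : V3) : ∃ z : V3, w = lin u v o z := by
  refine ⟨![d3 w v o / d3 u v o, d3 u w o / d3 u v o, d3 u v w / d3 u v o], ?_⟩
  have h' : d3 u v o = d3 u v o := rfl
  funext c
  simp only [lin, Matrix.cons_val_zero, Matrix.cons_val_one, Matrix.cons_val]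
  have key : w c * d3 u v o = d3 w v o * u c + d3 u w o * v c + d3 u v w * o c := by
    fin_cases c <;> simp [d3_eq] <;> ring
  field_simp
  linarith [key]

/-- the computation in normalised coordinates -/
lemma core (h : Fin 13 → V3) (a0 a1 a3 : ℝ) (ha0 : a0 ≠ 0) (ha1 : a1 ≠ 0) (ha3 : a3 ≠ 0)
    (h0 : h 0 = ![a0, 0, 0]) (h1 : h 1 = ![0, a1, 0]) (h2 : h 2 = ![1, 1, 1])
    (h3 : h 3 = ![a3, a3, -a3])
    (z014 : d3 (h 0) (h 1) (h 4) = 0) (z025 : d3 (h 0) (h 2) (h 5) = 0)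
    (z036 : d3 (h 0) (h 3) (h 6) = 0) (z1210 : d3 (h 1) (h 2) (h 10) = 0)
    (z139 : d3 (h 1) (h 3) (h 9) = 0) (z1511 : d3 (h 1) (h 5) (h 11) = 0)
    (z1612 : d3 (h 1) (h 6) (h 12) = 0) (z237 : d3 (h 2) (h 3) (h 7) = 0)
    (z238 : d3 (h 2) (h 3) (h 8) = 0) (z246 : d3 (h 2) (h 4) (h 6) = 0)
    (z2911 : d3 (h 2) (h 9) (h 11) = 0) (z345 : d3 (h 3) (h 4) (h 5) = 0)
    (z31012 : d3 (h 3) (h 10) (h 12) = 0) (z579 : d3 (h 5) (h 7) (h 9) = 0)
    (z6810 : d3 (h 6) (h 8) (h 10) = 0)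
    (n015 : d3 (h 0) (h 1) (h 5) ≠ 0) (n016 : d3 (h 0) (h 1) (h 6) ≠ 0)
    (n019 : d3 (h 0) (h 1) (h 9) ≠ 0) (n0110 : d3 (h 0) (h 1) (h 10) ≠ 0)
    (n0111 : d3 (h 0) (h 1) (h 11) ≠ 0) (n0112 : d3 (h 0) (h 1) (h 12) ≠ 0)
    (n125 : d3 (h 1) (h 2) (h 5) ≠ 0) (n024 : d3 (h 0) (h 2) (h 4) ≠ 0)
    (n037 : d3 (h 0) (h 3) (h 7) ≠ 0) (n028 : d3 (h 0) (h 2) (h 8) ≠ 0)
    (n157 : d3 (h 1) (h 5) (h 7) ≠ 0) (n168 : d3 (h 1) (h 6) (h 8) ≠ 0)
    (con : d3 (cr (h 0) (h 4)) (cr (h 7) (h 11)) (cr (h 8) (h 12)) = 0) :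
    (fx h - fy h) * ((3 + fb h) * (1 - fb h) + (1 + fb h) ^ 2 * (fx h + fy h - fx h * fy h))
      = 0 := by
  have h00 : h 0 0 = a0 := by rw [h0]; rfl
  have h01 : h 0 1 = 0 := by rw [h0]; rfl
  have h02 : h 0 2 = 0 := by rw [h0]; rfl
  have h10 : h 1 0 = 0 := by rw [h1]; rfl
  have h11 : h 1 1 = a1 := by rw [h1]; rfl
  have h12 : h 1 2 = 0 := by rw [h1]; rfl
  have h20 : h 2 0 = 1 := by rw [h2]; rfl
  have h21 : h 2 1 = 1 := by rw [h2]; rfl
  have h22 : h 2 2 = 1 := by rw [h2]; rfl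
  have h30 : h 3 0 = a3 := by rw [h3]; rfl
  have h31 : h 3 1 = a3 := by rw [h3]; rfl
  have h32 : h 3 2 = -a3 := by rw [h3]; rfl
  have fxe : fx h = d3 (h 0) (h 2) (h 7) * d3 (h 0) (h 1) (h 3) /
    (d3 (h 0) (h 3) (h 7) * d3 (h 0) (h 1) (h 2)) := rfl
  have fye : fy h = d3 (h 0) (h 3) (h 8) * d3 (h 0) (h 1) (h 2) /
    (d3 (h 0) (h 2) (h 8) * d3 (h 0) (h 1) (h 3)) := rfl
  have fbe : fb h = 1 - 2 * (d3 (h 1) (h 2) (h 5) * d3 (h 0) (h 1) (h 3)) /
    (d3 (h 0) (h 1) (h 5) * d3 (h 1) (h 2) (h 3)) := rfl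
  have con' := con
  simp only [d3, dt, cr, h00, h01, h02, Matrix.cons_val_zero, Matrix.cons_val_one,
      Matrix.cons_val] at con'
  clear con
  simp only [d3_eq, h00, h01, h02, h10, h11, h12, h20, h21, h22, h30, h31, h32] at *
  generalize h 4 0 = p4 at *
  generalize h 4 1 = q4 at *
  generalize h 4 2 = r4 at *
  generalize h 5 0 = p5 at *
  generalize h 5 1 = q5 at *
  generalize h 5 2 = r5 at *
  generalize h 6 0 = p6 at *
  generalize h 6 1 = q6 at *
  generalize h 6 2 = r6 at *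
  generalize h 7 0 = p7 at *
  generalize h 7 1 = q7 at *
  generalize h 7 2 = r7 at *
  generalize h 8 0 = p8 at *
  generalize h 8 1 = q8 at *
  generalize h 8 2 = r8 at *
  generalize h 9 0 = p9 at *
  generalize h 9 1 = q9 at *
  generalize h 9 2 = r9 at *
  generalize h 10 0 = p10 at *
  generalize h 10 1 = q10 at *
  generalize h 10 2 = r10 at *
  generalize h 11 0 = p11 at *
  generalize h 11 1 = q11 at *
  generalize h 11 2 = r11 at *
  generalize h 12 0 = p12 at *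
  generalize h 12 1 = q12 at *
  generalize h 12 2 = r12 at *
  generalize fx h = x at *
  generalize fy h = y at *
  generalize fb h = β at *
  -- linear relations
  have e4 : r4 = 0 := by
    have : a0 * a1 * r4 = 0 := by linear_combination z014
    simpa [ha0, ha1] using this
  subst e4
  have e5 : r5 = q5 := by
    have : a0 * (r5 - q5) = 0 := by linear_combination z025
    have := (mul_eq_zero.mp this).resolve_left ha0
    linarith
  subst e5
  have e6 : r6 = -q6 := by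
    have : (a0 * a3) * (r6 + q6) = 0 := by linear_combination z036
    have := (mul_eq_zero.mp this).resolve_left (mul_ne_zero ha0 ha3)
    linarith
  subst e6
  have e7 : q7 = p7 := by
    have : a3 * (2 * (q7 - p7)) = 0 := by linear_combination z237
    have := (mul_eq_zero.mp this).resolve_left ha3
    linarith
  subst e7
  have e8 : q8 = p8 := by
    have : a3 * (2 * (q8 - p8)) = 0 := by linear_combination z238
    have := (mul_eq_zero.mp this).resolve_left ha3
    linarith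
  subst e8
  have e9 : r9 = -p9 := by
    have : (a1 * a3) * (r9 + p9) = 0 := by linear_combination -z139
    have := (mul_eq_zero.mp this).resolve_left (mul_ne_zero ha1 ha3)
    linarith
  subst e9
  have e10 : r10 = p10 := by
    have : a1 * (r10 - p10) = 0 := by linear_combination -z1210
    have := (mul_eq_zero.mp this).resolve_left ha1
    linarith
  subst e10
  have q5n : r5 ≠ 0 := by
    intro h; apply n015; rw [h]; ring
  have q6n : q6 ≠ 0 := by
    intro h; apply n016; rw [h]; ring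
  have q4n : q4 ≠ 0 := by
    intro h; apply n024; rw [h]; ring
  have p9n : p9 ≠ 0 := by
    intro h; apply n019; rw [h]; ring
  have p10n : r10 ≠ 0 := by
    intro h; apply n0110; rw [h]; ring
  have r11n : r11 ≠ 0 := by
    intro h; apply n0111; rw [h]; ring
  have r12n : r12 ≠ 0 := by
    intro h; apply n0112; rw [h]; ring
  have s7n : q7 + r7 ≠ 0 := by
    intro h; apply n037; linear_combination (a0 * a3) * h
  have s8n : q8 - r8 ≠ 0 := by
    intro h; apply n028; linear_combination (-a0) * h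
  have bq : p5 = β * r5 := by
    rw [fbe]; field_simp; ring
  have hx : q7 - r7 = x * (q7 + r7) := by
    have h1 : x = (a0 * (r7 - q7) * (-(a0 * a1 * a3))) / ((a0 * a3 * (q7 + r7)) * (a0 * a1)) := by
      rw [fxe]; congr 1 <;> ring
    rw [h1]; field_simp; ring
  have hy : q8 + r8 = y * (q8 - r8) := by
    have h1 : y = (a0 * a3 * (q8 + r8) * (a0 * a1)) / ((a0 * (q8 - r8)) * (a0 * a1 * a3)) := by
      rw [fye]; congr 1 <;> ring
    rw [h1]; field_simp
  obtain ⟨l7, hl7, hq7, hr7⟩ : ∃ l : ℝ, l ≠ 0 ∧ q7 = l * (1 + x) ∧ r7 = l * (1 - x) := by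
    refine ⟨(q7 + r7) / 2, by simpa using s7n, by linear_combination hx / 2,
      by linear_combination -hx / 2⟩
  obtain ⟨l8, hl8, hq8, hr8⟩ : ∃ l : ℝ, l ≠ 0 ∧ q8 = l * (1 + y) ∧ r8 = l * (y - 1) := by
    refine ⟨(q8 - r8) / 2, by simpa using s8n, by linear_combination hy / 2,
      by linear_combination hy / 2⟩
  clear fxe fye fbe hx hy
  subst hq7 hr7 hq8 hr8 bq
  have e4' : 2 * p4 = (1 + β) * q4 := by
    have h1 : (a3 * r5) * (2 * p4 - (1 + β) * q4) = 0 := by linear_combination -z345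
    have := (mul_eq_zero.mp h1).resolve_left (mul_ne_zero ha3 q5n)
    linarith
  have e6' : p6 = β * q6 := by
    have h1 : q4 * (p6 - β * q6) = 0 := by linear_combination -z246 + q6 * e4'
    have := (mul_eq_zero.mp h1).resolve_left q4n
    linarith
  subst e6'
  have bn : (1 + x) - β * (1 - x) ≠ 0 := by
    intro h; apply n157; linear_combination (a1 * r5 * l7) * h
  have bn' : (1 + y) - β * (1 - y) ≠ 0 := by
    intro h; apply n168; linear_combination (-a1 * q6 * l8) * h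
  have e9' : ((1 + x) - β * (1 - x)) * q9 = ((β - 1) + (β + 1) * x) * p9 := by
    have h1 : (r5 * l7) * (((1 + x) - β * (1 - x)) * q9 - ((β - 1) + (β + 1) * x) * p9) = 0 := by
      linear_combination z579
    have := (mul_eq_zero.mp h1).resolve_left (mul_ne_zero q5n hl7)
    linarith
  have e11 : p11 = β * r11 := by
    have h1 : (a1 * r5) * (p11 - β * r11) = 0 := by linear_combination z1511
    have := (mul_eq_zero.mp h1).resolve_left (mul_ne_zero ha1 q5n)
    linarith
  subst e11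
  have E1 : ((1 + x) - β * (1 - x)) * q11 = r11 * ((1 - β) + β * (1 + β) * x) := by
    have h1 : (2 * p9) * (((1 + x) - β * (1 - x)) * q11 - r11 * ((1 - β) + β * (1 + β) * x)) = 0 := by
      linear_combination ((1 + x) - β * (1 - x)) * z2911 - (r11 * (1 - β)) * e9'
    have := (mul_eq_zero.mp h1).resolve_left (mul_ne_zero two_ne_zero p9n)
    linarith
  have e10' : ((1 + y) - β * (1 - y)) * q10 = ((β - 1) + (β + 1) * y) * r10 := by
    have h1 : (q6 * l8) * (((1 + y) - β * (1 - y)) * q10 - ((β - 1) + (β + 1) * y) * r10) = 0 := by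
      linear_combination -z6810
    have := (mul_eq_zero.mp h1).resolve_left (mul_ne_zero q6n hl8)
    linarith
  have e12 : p12 = -(β * r12) := by
    have h1 : (a1 * q6) * (p12 + β * r12) = 0 := by linear_combination -z1612
    have := (mul_eq_zero.mp h1).resolve_left (mul_ne_zero ha1 q6n)
    linarith
  subst e12
  have E2 : ((1 + y) - β * (1 - y)) * q12 = -(r12 * ((1 - β) + β * (1 + β) * y)) := by
    have h1 : (2 * a3 * r10) * (((1 + y) - β * (1 - y)) * q12 +
        r12 * ((1 - β) + β * (1 + β) * y)) = 0 := by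
      linear_combination -((1 + y) - β * (1 - y)) * z31012 + (a3 * r12 * (1 - β)) * e10'
    have := (mul_eq_zero.mp h1).resolve_left (mul_ne_zero (mul_ne_zero two_ne_zero ha3) p10n)
    linarith
  have b1 : (1 - β) ≠ 0 := by
    intro h; apply n125; linear_combination (-a1 * r5) * h
  have hU : ((1 + x) - β * (1 - x)) * (l7 * (1 + x) * r11 - l7 * (1 - x) * q11) =
      l7 * r11 * ((3 + β) * (1 - β) * x + (1 + β) ^ 2 * x ^ 2) := by
    linear_combination (-l7 * (1 - x)) * E1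
  have hW : ((1 + y) - β * (1 - y)) * (l8 * (1 + y) * r12 - l8 * (y - 1) * q12) =
      l8 * r12 * ((3 + β) * (1 - β) * y + (1 + β) ^ 2 * y ^ 2) := by
    linear_combination (-l8 * (y - 1)) * E2
  have hcon : (l7 * (1 + x) * r11 - l7 * (1 - x) * q11) * (-(l8 * r12 * ((1 + y) - β * (1 - y)))) +
      (l7 * r11 * ((1 + x) - β * (1 - x))) * (l8 * (1 + y) * r12 - l8 * (y - 1) * q12) = 0 := by
    have h1 : (a0 * q4) * ((l7 * (1 + x) * r11 - l7 * (1 - x) * q11) *
        (-(l8 * r12 * ((1 + y) - β * (1 - y)))) +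
      (l7 * r11 * ((1 + x) - β * (1 - x))) * (l8 * (1 + y) * r12 - l8 * (y - 1) * q12)) = 0 := by
      linear_combination con'
    exact (mul_eq_zero.mp h1).resolve_left (mul_ne_zero ha0 q4n)
  have key : (l7 * l8 * r11 * r12 * (1 - β) ^ 2) *
      ((x - y) * ((3 + β) * (1 - β) + (1 + β) ^ 2 * (x + y - x * y))) = 0 := by
    linear_combination (-((1 + x) - β * (1 - x)) * ((1 + y) - β * (1 - y))) * hcon -
      (l8 * r12 * ((1 + y) - β * (1 - y)) ^ 2) * hU + (l7 * r11 * ((1 + x) - β * (1 - x)) ^ 2) * hW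
  exact (mul_eq_zero.mp key).resolve_left (mul_ne_zero (mul_ne_zero (mul_ne_zero
    (mul_ne_zero hl7 hl8) r11n) r12n) (pow_ne_zero 2 b1))

lemma quot (k a b c d : ℝ) (hk : k ≠ 0) :
    (k * a) * (k * b) / ((k * c) * (k * d)) = a * b / (c * d) := by
  rw [show (k * a) * (k * b) = k ^ 2 * (a * b) by ring,
    show (k * c) * (k * d) = k ^ 2 * (c * d) by ring, mul_div_mul_left _ _ (pow_ne_zero 2 hk)]

lemma ev (a b c : Fin 13) (h : d3 (gg 4 4 a) (gg 4 4 b) (gg 4 4 c) ≠ 0) :
    ∀ᶠ g in 𝓝 (gg 4 4), d3 (g a) (g b) (g c) ≠ 0 := by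
  have hc : Continuous fun g : Fin 13 → V3 => d3 (g a) (g b) (g c) := by
    simp only [d3_eq]; fun_prop
  exact hc.continuousAt.eventually_ne h

/-- piece A of project OP -/
theorem s_alg : S_ALG := by
  unfold S_ALG
  filter_upwards [ev 0 1 2 (by simp [d3_eq, gg, cc, vv] <;> norm_num),
    ev 0 1 3 (by simp [d3_eq, gg, cc, vv] <;> norm_num),
    ev 0 3 2 (by simp [d3_eq, gg, cc, vv] <;> norm_num),
    ev 3 1 2 (by simp [d3_eq, gg, cc, vv] <;> norm_num),
    ev 0 1 5 (by simp [d3_eq, gg, cc, vv] <;> norm_num),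
    ev 0 1 6 (by simp [d3_eq, gg, cc, vv] <;> norm_num),
    ev 0 1 9 (by simp [d3_eq, gg, cc, vv] <;> norm_num),
    ev 0 1 10 (by simp [d3_eq, gg, cc, vv] <;> norm_num),
    ev 0 1 11 (by simp [d3_eq, gg, cc, vv] <;> norm_num),
    ev 0 1 12 (by simp [d3_eq, gg, cc, vv] <;> norm_num),
    ev 1 2 5 (by simp [d3_eq, gg, cc, vv] <;> norm_num),
    ev 0 2 4 (by simp [d3_eq, gg, cc, vv] <;> norm_num),
    ev 0 3 7 (by simp [d3_eq, gg, cc, vv] <;> norm_num),
    ev 0 2 8 (by simp [d3_eq, gg, cc, vv] <;> norm_num),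
    ev 1 5 7 (by simp [d3_eq, gg, cc, vv] <;> norm_num),
    ev 1 6 8 (by simp [d3_eq, gg, cc, vv] <;> norm_num)] with g n012 n013 n032 n312 n015 n016
    n019 n0110 n0111 n0112 n125 n024 n037 n028 n157 n168 hz con
  have z014 := hz 0 1 4 (by simp [d3_eq, gg, cc, vv] <;> norm_num)
  have z025 := hz 0 2 5 (by simp [d3_eq, gg, cc, vv] <;> norm_num)
  have z036 := hz 0 3 6 (by simp [d3_eq, gg, cc, vv] <;> norm_num)
  have z1210 := hz 1 2 10 (by simp [d3_eq, gg, cc, vv] <;> norm_num)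
  have z139 := hz 1 3 9 (by simp [d3_eq, gg, cc, vv] <;> norm_num)
  have z1511 := hz 1 5 11 (by simp [d3_eq, gg, cc, vv] <;> norm_num)
  have z1612 := hz 1 6 12 (by simp [d3_eq, gg, cc, vv] <;> norm_num)
  have z237 := hz 2 3 7 (by simp [d3_eq, gg, cc, vv] <;> norm_num)
  have z238 := hz 2 3 8 (by simp [d3_eq, gg, cc, vv] <;> norm_num)
  have z246 := hz 2 4 6 (by simp [d3_eq, gg, cc, vv] <;> norm_num)
  have z2911 := hz 2 9 11 (by simp [d3_eq, gg, cc, vv] <;> norm_num)
  have z345 := hz 3 4 5 (by simp [d3_eq, gg, cc, vv] <;> norm_num)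
  have z31012 := hz 3 10 12 (by simp [d3_eq, gg, cc, vv] <;> norm_num)
  have z579 := hz 5 7 9 (by simp [d3_eq, gg, cc, vv] <;> norm_num)
  have z6810 := hz 6 8 10 (by simp [d3_eq, gg, cc, vv] <;> norm_num)
  clear hz
  -- the frame
  set D := d3 (g 0) (g 1) (g 2) with hD
  set P := d3 (g 3) (g 1) (g 2) with hP
  set Q := d3 (g 0) (g 3) (g 2) with hQ
  set R := d3 (g 0) (g 1) (g 3) with hR
  have cram : ∀ c, D * g 3 c = P * g 0 c + Q * g 1 c + R * g 2 c := by
    intro c
    rw [hD, hP, hQ, hR]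
    fin_cases c <;> simp [d3_eq] <;> ring
  set u0 : V3 := fun c => -(P / (2 * R)) * g 0 c with hu0
  set u1 : V3 := fun c => -(Q / (2 * R)) * g 1 c with hu1
  set o : V3 := fun c => g 2 c - u0 c - u1 c with ho
  have hΔ : d3 u0 u1 o = (P / (2 * R)) * (Q / (2 * R)) * D := by
    rw [hD, d3_eq, d3_eq]; simp only [hu0, hu1, ho]; ring
  have hΔn : d3 u0 u1 o ≠ 0 := by
    rw [hΔ]
    refine mul_ne_zero (mul_ne_zero (div_ne_zero n312 ?_) (div_ne_zero n032 ?_)) n012 <;>
      exact mul_ne_zero two_ne_zero n013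
  choose f hf using fun j => lin_exists u0 u1 o hΔn (g j)
  obtain ⟨h, h0, h1, h2, h3, hg⟩ : ∃ h : Fin 13 → V3, h 0 = ![-(2 * R / P), 0, 0] ∧
      h 1 = ![0, -(2 * R / Q), 0] ∧ h 2 = ![1, 1, 1] ∧ h 3 = ![-(R / D), -(R / D), -(-(R / D))] ∧
      ∀ j, g j = lin u0 u1 o (h j) := by
    refine ⟨fun j => if j = 0 then ![-(2 * R / P), 0, 0] else if j = 1 then ![0, -(2 * R / Q), 0]
      else if j = 2 then ![1, 1, 1] else if j = 3 then ![-(R / D), -(R / D), -(-(R / D))] else f j,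
      rfl, rfl, rfl, rfl, fun j => ?_⟩
    by_cases j0 : j = 0
    · subst j0
      funext c
      simp only [if_true, lin, hu0, hu1, ho, Matrix.cons_val_zero, Matrix.cons_val_one,
        Matrix.cons_val]
      field_simp
      ring
    by_cases j1 : j = 1
    · subst j1
      funext c
      simp only [if_true, j0, if_false, lin, hu0, hu1, ho, Matrix.cons_val_zero,
        Matrix.cons_val_one, Matrix.cons_val]
      field_simp
      ring
    by_cases j2 : j = 2
    · subst j2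
      funext c
      simp only [if_true, j0, j1, if_false, lin, ho, Matrix.cons_val_zero,
        Matrix.cons_val_one, Matrix.cons_val]
      ring
    by_cases j3 : j = 3
    · subst j3
      funext c
      have hc := cram c
      simp only [if_true, j0, j1, j2, if_false, lin, hu0, hu1, ho, Matrix.cons_val_zero,
        Matrix.cons_val_one, Matrix.cons_val]
      have : g 3 c = (P * g 0 c + Q * g 1 c + R * g 2 c) / D := by
        rw [← hc]; field_simp
      rw [this]
      field_simp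
      ring
    · simp only [j0, j1, j2, j3, if_false]
      exact hf j
  have hd : ∀ a b c, d3 (g a) (g b) (g c) = d3 u0 u1 o * d3 (h a) (h b) (h c) := by
    intro a b c
    rw [hg a, hg b, hg c, d3_lin]
  have hz' : ∀ {a b c}, d3 (g a) (g b) (g c) = 0 → d3 (h a) (h b) (h c) = 0 := by
    intro a b c e
    rw [hd] at e
    exact (mul_eq_zero.mp e).resolve_left hΔn
  have hn' : ∀ {a b c}, d3 (g a) (g b) (g c) ≠ 0 → d3 (h a) (h b) (h c) ≠ 0 := by
    intro a b c e e'
    apply e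
    rw [hd, e', mul_zero]
  have con' : d3 (cr (h 0) (h 4)) (cr (h 7) (h 11)) (cr (h 8) (h 12)) = 0 := by
    rw [d3_cr] at con ⊢
    rw [hd, hd, hd, hd] at con
    have : (d3 u0 u1 o) ^ 2 * (d3 (h 7) (h 11) (h 12) * d3 (h 0) (h 4) (h 8) -
        d3 (h 7) (h 11) (h 8) * d3 (h 0) (h 4) (h 12)) = 0 := by linear_combination con
    exact (mul_eq_zero.mp this).resolve_left (pow_ne_zero 2 hΔn)
  have ex : fx g = fx h := by
    unfold fx; rw [hd, hd, hd, hd, quot _ _ _ _ _ hΔn]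
  have ey : fy g = fy h := by
    unfold fy; rw [hd, hd, hd, hd, quot _ _ _ _ _ hΔn]
  have eb : fb g = fb h := by
    unfold fb
    rw [hd, hd, hd, hd, mul_div_assoc 2, mul_div_assoc 2, quot _ _ _ _ _ hΔn]
  rw [ex, ey, eb]
  exact core h _ _ _ (neg_ne_zero.mpr (div_ne_zero (mul_ne_zero two_ne_zero n013) n312))
    (neg_ne_zero.mpr (div_ne_zero (mul_ne_zero two_ne_zero n013) n032))
    (neg_ne_zero.mpr (div_ne_zero n013 n012)) h0 h1 h2 h3 (hz' z014) (hz' z025) (hz' z036)
    (hz' z1210) (hz' z139) (hz' z1511) (hz' z1612) (hz' z237) (hz' z238) (hz' z246) (hz' z2911)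
    (hz' z345) (hz' z31012) (hz' z579) (hz' z6810) (hn' n015) (hn' n016) (hn' n019) (hn' n0110)
    (hn' n0111) (hn' n0112) (hn' n125) (hn' n024) (hn' n037) (hn' n028) (hn' n157) (hn' n168) con'

end Pool.Agent.R801.OP
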